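import Mathlib
import Pool.Agent.H72.GM.Xfacts
import Pool.Agent.H72.GM.Quo

/-!
# In every dimension `≥ 3`: the number of Manin components is unbounded

`X = P(1,...,1,2)` with `ν + 3` weights `1` is the cone over the Veronese variety of the projective
space of dimension `ν + 2`; it is embedded by the sections of `O(2)`. It is a `Q`-factorial terminal
Fano variety of dimension `ν + 3` and Picard rank one. The classes of the curves on `X` are the
degrees `d` with respect to `O(2)`. The space of the rational curves of degree `d` on `X` (the locus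
of irreducible domains in the Kontsevich space) has exactly `⌊d / 2⌋ + 1` irreducible components, and
at least `⌊d / 2⌋` of them are Manin components.
-/

set_option autoImplicit false

namespace Pool.Agent.Results.MP_ea1590_ag.ManinUnboundedEveryDimension

open Pool.Agent.Y166.GM

/-- For every `ν`, the variety `X = P(1,...,1,2)` of dimension `ν + 3` has no pair `(c, α)`. -/
theorem result (ν : ℕ) (k : Type) [Field k] [IsAlgClosed k] [CharZero k] :
    IsProjVar (Pool.Agent.H72.GM.Xcone ν k) ∧
    (∀ (x x' : Fin (ν + 3) → k) (y y' : k), x ≠ 0 ∨ y ≠ 0 →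
      ((∃ p : PP k (Option (Fin (ν + 3) × Fin (ν + 3))),
          Rep p (Pool.Agent.H72.GM.ver x y) ∧ Rep p (Pool.Agent.H72.GM.ver x' y')) ↔
        ∃ t : k, t ≠ 0 ∧ x' = t • x ∧ y' = t ^ 2 * y)) ∧
    ∀ I : Invariants (Pool.Agent.H72.GM.Xcone ν k),
      (∀ d : ℕ, 1 ≤ d →
        (irreducibleComponents (Curves (Pool.Agent.H72.GM.Xcone ν k) d)).encard =
          ((d / 2 + 1 : ℕ) : ℕ∞) ∧
        ((d / 2 : ℕ) : ℕ∞) ≤ (maninCurves I d).encard ∧
        (maninCurves I d).encard ≤ ((d / 2 + 1 : ℕ) : ℕ∞)) ∧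
      ¬ ∃ c α : ℕ, ∀ β : ℕ, α ≤ β → (maninCurves I β).encard = (c : ℕ∞) := by
  refine ⟨Pool.Agent.H72.GM.Xcone_projVar,
    fun x x' y y' h => Pool.Agent.H72.GM.ver_orbit x x' y y' h, fun I => ⟨fun d hd => ?_, ?_⟩⟩
  · have h0 := Pool.Agent.H72.GM.encard_components_Q (ν := ν) (k := k) hd
    refine ⟨h0, Pool.Agent.H72.GM.encard_manin_Q I hd, ?_⟩
    rw [← h0]
    exact Set.encard_le_encard fun M hM => hM.1
  · rintro ⟨c, α, h⟩
    have h1 := Pool.Agent.H72.GM.encard_manin_Q I (d := α + 2 * c + 2) (by omega)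
    rw [h _ (by omega)] at h1
    have h2 : (α + 2 * c + 2) / 2 ≤ c := by exact_mod_cast h1
    omega

end Pool.Agent.Results.MP_ea1590_ag.ManinUnboundedEveryDimension
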